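import Mathlib

set_option autoImplicit false
set_option linter.unusedSectionVars false
open Equiv Equiv.Perm Finset

namespace Pool.Agent.RandTransp

variable {α : Type*} [Fintype α] [DecidableEq α]

/-- permutations supported on `S` -/
def PS (S : Finset α) : Finset (Perm α) := univ.filter (fun w => ∀ x, x ∉ S → w x = x)

lemma mem_PS {S : Finset α} {w : Perm α} : w ∈ PS S ↔ ∀ x, x ∉ S → w x = x := by
  unfold PS
  simp

/-- the antisymmetrisation of `f` over the marks `S`, at `σ` -/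
noncomputable def FS (f : Perm α → ℝ) (S : Finset α) (σ : Perm α) : ℝ :=
  ∑ w ∈ PS S, ((sign w : ℤ) : ℝ) * f (σ * w)

def Cls (f : Perm α → ℝ) : Prop := ∀ g σ, f (g * σ * g⁻¹) = f σ

def Adm (σ : Perm α) (S : Finset α) : Prop := ∀ b ∈ S, ∀ c ∈ S, b ≠ c → ¬ σ.SameCycle b c

lemma swap_mul_mem_PS {S : Finset α} {b c : α} (hb : b ∈ S) (hc : c ∈ S) {w : Perm α} (hw : w ∈ PS S) :
    swap b c * w ∈ PS S := by
  rw [mem_PS] at hw ⊢
  intro x hx
  rw [Perm.mul_apply, hw x hx]
  apply swap_apply_of_ne_of_ne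
  · rintro rfl; exact hx hb
  · rintro rfl; exact hx hc

lemma sign_swap_mul {b c : α} (h : b ≠ c) (w : Perm α) :
    ((sign (swap b c * w) : ℤ) : ℝ) = - ((sign w : ℤ) : ℝ) := by
  rw [Perm.sign_mul, sign_swap h]
  simp

/-- (P1) -/
lemma FS_swap (f : Perm α → ℝ) {S : Finset α} {b c : α} (hb : b ∈ S) (hc : c ∈ S) (hbc : b ≠ c)
    (σ : Perm α) : FS f S (σ * swap b c) = - FS f S σ := by
  unfold FS
  rw [← Finset.sum_neg_distrib]
  apply Finset.sum_nbij' (fun w => swap b c * w) (fun w => swap b c * w)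
  · intro w hw; exact swap_mul_mem_PS hb hc hw
  · intro w hw; exact swap_mul_mem_PS hb hc hw
  · intro w _; simp [← mul_assoc]
  · intro w _; simp [← mul_assoc]
  · intro w _
    rw [sign_swap_mul hbc, mul_assoc]
    ring

/-- (P2) -/
lemma FS_conj {f : Perm α → ℝ} (hf : Cls f) (g : Perm α) (S : Finset α) (σ : Perm α) :
    FS f (S.image g) (g * σ * g⁻¹) = FS f S σ := by
  unfold FS
  apply Finset.sum_nbij' (fun w => g⁻¹ * w * g) (fun w => g * w * g⁻¹)
  · intro w hw
    rw [mem_PS] at hw ⊢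
    intro x hx
    have : g x ∉ S.image g := by
      rw [Finset.mem_image]
      rintro ⟨y, hy, hyx⟩
      exact hx (by rw [← g.injective hyx]; exact hy)
    rw [Perm.mul_apply, Perm.mul_apply, hw _ this, show g⁻¹ (g x) = x by simp]
  · intro w hw
    rw [mem_PS] at hw ⊢
    intro x hx
    have : g⁻¹ x ∉ S := by
      intro h
      apply hx
      rw [Finset.mem_image]
      exact ⟨_, h, by simp⟩
    rw [Perm.mul_apply, Perm.mul_apply, hw _ this, show g (g⁻¹ x) = x by simp]
  · intro w _; group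
  · intro w _; group
  · intro w _
    have h1 : sign (g⁻¹ * w * g) = sign w := by
      rw [Perm.sign_mul, Perm.sign_mul, sign_inv, mul_comm, ← mul_assoc]
      simp
    rw [h1]
    congr 1
    rw [← hf g (σ * (g⁻¹ * w * g))]
    congr 1
    group

lemma FS_comm {f : Perm α → ℝ} (hf : Cls f) {g σ : Perm α} (h : g * σ = σ * g) (S : Finset α) :
    FS f (S.image g) σ = FS f S σ := by
  have := FS_conj hf g S σ
  rwa [h, mul_inv_cancel_right] at this

lemma conj_step {f : Perm α → ℝ} (hf : Cls f) {g σ : Perm α} (h : g * σ = σ * g) (S : Finset α)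
    (x y : α) : FS f S (σ * swap x y) = FS f (S.image g) (σ * swap (g x) (g y)) := by
  rw [← FS_conj hf g S (σ * swap x y)]
  congr 1
  rw [← mul_assoc, h, mul_assoc σ g, mul_swap_eq_swap_mul]
  group

lemma conj_step2 {f : Perm α → ℝ} (hf : Cls f) {g σ : Perm α} (h : g * σ = σ * g) (S : Finset α)
    (x y z w : α) : FS f S (σ * swap x y * swap z w) =
      FS f (S.image g) (σ * swap (g x) (g y) * swap (g z) (g w)) := by
  rw [← FS_conj hf g S (σ * swap x y * swap z w)]
  congr 1
  have h1 : g * swap x y = swap (g x) (g y) * g := mul_swap_eq_swap_mul g x y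
  have h2 : g * swap z w = swap (g z) (g w) * g := mul_swap_eq_swap_mul g z w
  calc g * (σ * swap x y * swap z w) * g⁻¹ = (g * σ) * swap x y * swap z w * g⁻¹ := by group
    _ = σ * (g * swap x y) * swap z w * g⁻¹ := by rw [h]; group
    _ = σ * swap (g x) (g y) * (g * swap z w) * g⁻¹ := by rw [h1]; group
    _ = σ * swap (g x) (g y) * swap (g z) (g w) := by rw [h2]; group

/-- (P3) -/
lemma FS_insert (f : Perm α → ℝ) {S : Finset α} {z : α} (hz : z ∉ S) (σ : Perm α) :
    FS f (insert z S) σ = FS f S σ - ∑ b ∈ S, FS f S (σ * swap b z) := by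
  have h1 : FS f (insert z S) σ = ∑ b ∈ insert z S, ∑ w ∈ (PS (insert z S)).filter (fun w => w z = b),
      ((sign w : ℤ) : ℝ) * f (σ * w) := by
    unfold FS
    rw [Finset.sum_fiberwise_of_maps_to]
    intro w hw
    rw [mem_PS] at hw
    by_contra h
    have h2 : w (w z) = w z := hw _ h
    have h3 := w.injective h2
    rw [h3] at h
    exact h (Finset.mem_insert_self _ _)
  rw [h1, Finset.sum_insert hz]
  have h2 : ∑ w ∈ (PS (insert z S)).filter (fun w => w z = z), ((sign w : ℤ) : ℝ) * f (σ * w) =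
      FS f S σ := by
    unfold FS
    apply Finset.sum_congr _ (fun _ _ => rfl)
    ext w
    rw [Finset.mem_filter, mem_PS, mem_PS]
    constructor
    · rintro ⟨h3, h4⟩ x hx
      by_cases hxz : x = z
      · rw [hxz, h4]
      · exact h3 x (by rw [Finset.mem_insert]; tauto)
    · intro h3
      exact ⟨fun x hx => h3 x (fun h => hx (Finset.mem_insert_of_mem h)), h3 z hz⟩
  rw [h2, sub_eq_add_neg, ← Finset.sum_neg_distrib]
  congr 1
  apply Finset.sum_congr rfl
  intro b hb
  have hbz : b ≠ z := by rintro rfl; exact hz hb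
  unfold FS
  rw [← Finset.sum_neg_distrib]
  apply Finset.sum_nbij' (fun w => swap b z * w) (fun w => swap b z * w)
  · intro w hw
    rw [Finset.mem_filter, mem_PS] at hw
    rw [mem_PS]
    intro x hx
    rw [Perm.mul_apply]
    by_cases hxz : x = z
    · rw [hxz, hw.2, swap_apply_left]
    · rw [hw.1 x (by rw [Finset.mem_insert]; tauto)]
      apply swap_apply_of_ne_of_ne
      · rintro rfl; exact hx hb
      · exact hxz
  · intro w hw
    rw [mem_PS] at hw
    rw [Finset.mem_filter, mem_PS]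
    refine ⟨fun x hx => ?_, ?_⟩
    · rw [Finset.mem_insert] at hx
      push Not at hx
      rw [Perm.mul_apply, hw x hx.2]
      apply swap_apply_of_ne_of_ne
      · rintro rfl; exact hx.2 hb
      · exact hx.1
    · rw [Perm.mul_apply, hw z hz, swap_apply_right]
  · intro w _; simp [← mul_assoc]
  · intro w _; simp [← mul_assoc]
  · intro w _
    rw [sign_swap_mul hbz, mul_assoc σ, ← mul_assoc (swap b z), swap_mul_self, one_mul]
    ring

/-- sum over all ordered pairs -/
noncomputable def J (f : Perm α → ℝ) (σ : Perm α) : ℝ := ∑ x, ∑ y, f (σ * swap x y)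

lemma FS_J (f : Perm α → ℝ) (S : Finset α) (σ : Perm α) :
    FS (J f) S σ = ∑ x, ∑ y, FS f S (σ * swap x y) := by
  unfold FS J
  have h1 : ∀ w : Perm α, ∑ x, ∑ y, f (σ * w * swap x y) = ∑ x, ∑ y, f (σ * swap x y * w) := by
    intro w
    have h2 : ∀ x y, f (σ * w * swap x y) = f (σ * swap (w x) (w y) * w) := by
      intro x y
      rw [mul_assoc, mul_swap_eq_swap_mul, mul_assoc]
    simp_rw [h2]
    rw [Equiv.sum_comp w (fun x => ∑ y, f (σ * swap x (w y) * w))]
    apply Finset.sum_congr rfl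
    intro x _
    rw [Equiv.sum_comp w (fun y => f (σ * swap x y * w))]
  simp_rw [h1, Finset.mul_sum]
  rw [Finset.sum_comm]
  apply Finset.sum_congr rfl
  intro x _
  rw [Finset.sum_comm]

lemma FS_add (f g : Perm α → ℝ) (c : ℝ) (S : Finset α) (σ : Perm α) :
    FS (fun τ => f τ + c * g τ) S σ = FS f S σ + c * FS g S σ := by
  unfold FS
  rw [Finset.mul_sum, ← Finset.sum_add_distrib]
  apply Finset.sum_congr rfl
  intro w _
  ring

lemma Cls_J {f : Perm α → ℝ} (hf : Cls f) : Cls (J f) := by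
  intro g σ
  unfold J
  have h2 : ∀ x y, f (g * σ * g⁻¹ * swap x y) = f (σ * swap (g⁻¹ x) (g⁻¹ y)) := by
    intro x y
    have h1 : g⁻¹ * swap x y = swap (g⁻¹ x) (g⁻¹ y) * g⁻¹ := mul_swap_eq_swap_mul g⁻¹ x y
    rw [← hf g (σ * swap (g⁻¹ x) (g⁻¹ y))]
    congr 1
    calc g * σ * g⁻¹ * swap x y = g * σ * (g⁻¹ * swap x y) := by group
      _ = g * (σ * swap (g⁻¹ x) (g⁻¹ y)) * g⁻¹ := by rw [h1]; group
  simp_rw [h2]
  rw [Equiv.sum_comp g⁻¹ (fun x => ∑ y, f (σ * swap x (g⁻¹ y)))]
  apply Finset.sum_congr rfl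
  intro x _
  rw [Equiv.sum_comp g⁻¹ (fun y => f (σ * swap x y))]

/-- sets invariant under a permutation separate cycles -/
lemma not_same_of_inv {π : Perm α} {T : Set α} (hT : ∀ x ∈ T, π x ∈ T) {b c : α} (hb : b ∈ T)
    (hc : c ∉ T) : ¬ π.SameCycle b c := by
  intro h
  obtain ⟨i, _, hi⟩ := h.exists_pow_eq'
  apply hc
  rw [← hi]
  have h1 : ∀ i : ℕ, (π ^ i) b ∈ T := by
    intro i
    induction i with
    | zero => simpa using hb
    | succ i ih =>
      rw [pow_succ', Perm.mul_apply]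
      exact hT _ ih
  exact h1 i

/-- the period of `b` -/
noncomputable def per (σ : Perm α) (b : α) : ℕ := Function.minimalPeriod σ b

lemma pow_per (σ : Perm α) (b : α) : (σ ^ per σ b) b = b := by
  have := Function.isPeriodicPt_minimalPeriod σ b
  unfold per
  rw [← Perm.iterate_eq_pow]
  exact this

lemma per_pos (σ : Perm α) (b : α) : 0 < per σ b := by
  apply Function.minimalPeriod_pos_of_mem_periodicPts
  exact Function.Injective.mem_periodicPts σ.injective b

lemma pow_ne_self {σ : Perm α} {b : α} {k : ℕ} (h0 : 0 < k) (hk : k < per σ b) : (σ ^ k) b ≠ b := by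
  intro h
  rw [← Perm.iterate_eq_pow] at h
  have := Function.IsPeriodicPt.minimalPeriod_le h0 h
  unfold per at hk
  omega

lemma pow_ne {σ : Perm α} {b : α} {i j : ℕ} (h0 : i < j) (hk : j < i + per σ b) :
    (σ ^ i) b ≠ (σ ^ j) b := by
  intro h
  have h1 : j = i + (j - i) := by omega
  rw [h1, pow_add, Perm.mul_apply] at h
  have h2 := (σ ^ i).injective h
  exact pow_ne_self (by omega) (by omega) h2.symm

lemma same_pow (σ : Perm α) (b : α) (i : ℕ) : σ.SameCycle b ((σ ^ i) b) := ⟨i, by simp⟩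

lemma same_pow_inv (σ : Perm α) (b : α) (i : ℕ) : σ.SameCycle b ((σ ^ i)⁻¹ b) := ⟨-i, by simp⟩

lemma exists_lt_per {σ : Perm α} {b c : α} (h : σ.SameCycle b c) : ∃ i < per σ b, (σ ^ i) b = c := by
  obtain ⟨i, _, hi⟩ := h.exists_pow_eq'
  refine ⟨i % per σ b, Nat.mod_lt _ (per_pos σ b), ?_⟩
  rw [← hi]
  have h1 : i = i % per σ b + per σ b * (i / per σ b) := (Nat.mod_add_div _ _).symm
  conv_rhs => rw [h1]
  rw [pow_add, Perm.mul_apply, pow_mul]
  congr 1
  have h2 := pow_per σ b
  generalize (i / per σ b) = k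
  induction k with
  | zero => simp
  | succ k ih => rw [pow_succ, Perm.mul_apply, h2, ← ih]

/-- agreement along an orbit segment -/
lemma pow_eq_of_agree {π σ : Perm α} {x : α} {k : ℕ} (h : ∀ j < k, π ((σ ^ j) x) = σ ((σ ^ j) x)) :
    (π ^ k) x = (σ ^ k) x := by
  induction k with
  | zero => rfl
  | succ k ih =>
    rw [pow_succ', Perm.mul_apply, ih (fun j hj => h j (by omega)), h k (by omega), pow_succ',
      Perm.mul_apply]

lemma cyc_comm (σ : Perm α) (b : α) : σ.cycleOf b * σ = σ * σ.cycleOf b := by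
  ext x
  rw [Perm.mul_apply, Perm.mul_apply]
  by_cases h : σ.SameCycle b x
  · rw [cycleOf_apply, cycleOf_apply, if_pos h, if_pos (sameCycle_apply_right.mpr h)]
  · rw [cycleOf_apply, cycleOf_apply, if_neg h, if_neg (fun h' => h (sameCycle_apply_right.mp h'))]

/-- rotation by `σ^k` on the cycle of `b` only -/
lemma cyc_pow_comm (σ : Perm α) (b : α) (k : ℕ) : (σ.cycleOf b) ^ k * σ = σ * (σ.cycleOf b) ^ k := by
  have : Commute (σ.cycleOf b) σ := cyc_comm σ b
  exact this.pow_left k

lemma cyc_pow_apply (σ : Perm α) (b x : α) (h : σ.SameCycle b x) (k : ℕ) :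
    ((σ.cycleOf b) ^ k) x = (σ ^ k) x := by
  have : σ.cycleOf b = σ.cycleOf x := h.cycleOf_eq
  rw [this, cycleOf_pow_apply_self]

lemma cyc_pow_fix (σ : Perm α) (b x : α) (h : ¬ σ.SameCycle b x) (k : ℕ) :
    ((σ.cycleOf b) ^ k) x = x := by
  apply pow_apply_eq_self_of_apply_eq_self
  exact cycleOf_apply_of_not_sameCycle h

end Pool.Agent.RandTransp
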