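import Mathlib
import Pool.Agent.RandTransp.Alg

set_option autoImplicit false
set_option linter.unusedSectionVars false
open Equiv Equiv.Perm Finset

namespace Pool.Agent.RandTransp

variable {α : Type*} [Fintype α] [DecidableEq α]

/-- inverse rotation on one cycle -/
def ri (σ : Perm α) (b : α) (k : ℕ) : Perm α := ((σ.cycleOf b) ^ k)⁻¹

lemma ri_comm (σ : Perm α) (b : α) (k : ℕ) : ri σ b k * σ = σ * ri σ b k := by
  have : Commute ((σ.cycleOf b) ^ k) σ := cyc_pow_comm σ b k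
  exact this.inv_left

lemma ri_apply (σ : Perm α) (b x : α) (h : σ.SameCycle b x) (k : ℕ) :
    ri σ b k x = (σ ^ k)⁻¹ x := by
  unfold ri
  rw [Perm.inv_eq_iff_eq]
  have h2 : σ.SameCycle b ((σ ^ k)⁻¹ x) := h.trans ⟨-k, by simp⟩
  rw [cyc_pow_apply σ b _ h2]
  simp

lemma ri_fix (σ : Perm α) (b x : α) (h : ¬ σ.SameCycle b x) (k : ℕ) : ri σ b k x = x := by
  unfold ri
  rw [Perm.inv_eq_iff_eq]
  exact (cyc_pow_fix σ b x h k).symm

lemma agree2 (σ : Perm α) {b c y : α} (h1 : y ≠ b) (h2 : y ≠ c) : (σ * swap b c) y = σ y := by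
  rw [Perm.mul_apply, swap_apply_of_ne_of_ne h1 h2]

section rho
variable {σ : Perm α} {b c : α}

lemma pow_ne_c (h : ¬ σ.SameCycle b c) (j : ℕ) : (σ ^ j) b ≠ c := by
  intro h1
  exact h ⟨j, by simpa using h1⟩

lemma back_ne_b {s j : ℕ} (hs : s < per σ b) (hj : j < s) : (σ ^ j) ((σ ^ s)⁻¹ b) ≠ b := by
  intro h1
  have h2 : (σ ^ (s - j)) ((σ ^ j) ((σ ^ s)⁻¹ b)) = b := by
    rw [← Perm.mul_apply, ← pow_add, show s - j + j = s by omega]
    simp
  rw [h1] at h2
  exact pow_ne_self (by omega) (by omega) h2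

lemma back_ne_c (h : ¬ σ.SameCycle b c) {s j : ℕ} : (σ ^ j) ((σ ^ s)⁻¹ b) ≠ c := by
  intro h1
  apply h
  have h2 : σ.SameCycle b ((σ ^ j) ((σ ^ s)⁻¹ b)) :=
    (same_pow_inv σ b s).trans (same_pow σ _ j)
  rwa [h1] at h2

/-- (r1) -/
lemma rho_back (h : ¬ σ.SameCycle b c) {s : ℕ} (hs : s < per σ b) :
    ((σ * swap b c) ^ s) ((σ ^ s)⁻¹ b) = b := by
  rw [pow_eq_of_agree (σ := σ)]
  · simp
  · intro j hj
    exact agree2 σ (back_ne_b hs hj) (back_ne_c h)

/-- (r2) -/
lemma rho_c (h : ¬ σ.SameCycle b c) {w : ℕ} (h0 : 0 < w) (hw : w ≤ per σ b) :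
    ((σ * swap b c) ^ w) c = (σ ^ w) b := by
  obtain ⟨k, rfl⟩ : ∃ k, w = k + 1 := ⟨w - 1, by omega⟩
  have h1 : (σ * swap b c) c = σ b := by rw [Perm.mul_apply, swap_apply_right]
  rw [pow_succ, Perm.mul_apply, h1, pow_eq_of_agree (σ := σ), pow_succ, Perm.mul_apply]
  intro j hj
  have h2 : (σ ^ j) (σ b) = (σ ^ (j+1)) b := by rw [pow_succ, Perm.mul_apply]
  rw [h2]
  exact agree2 σ (pow_ne_self (by omega) (by omega)) (pow_ne_c h _)

lemma not_same_rho {d : α} (hb : ¬ σ.SameCycle d b) (hc : ¬ σ.SameCycle d c) :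
    ¬ (σ * swap b c).SameCycle b d := by
  intro h
  have h1 : ¬ (σ * swap b c).SameCycle d b := by
    apply not_same_of_inv (T := {y | σ.SameCycle d y})
    · intro x hx
      have hxb : x ≠ b := by rintro rfl; exact hb hx
      have hxc : x ≠ c := by rintro rfl; exact hc hx
      rw [agree2 σ hxb hxc]
      exact hx.trans ⟨1, by simp⟩
    · exact SameCycle.refl _ _
    · exact hb
  exact h1 h.symm

end rho

/-- (E0) -/
lemma E0 {f : Perm α → ℝ} (hf : Cls f) {σ : Perm α} {S : Finset α} (hA : Adm σ S) {b c : α}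
    (hb : b ∈ S) (hc : c ∈ S) (hbc : b ≠ c) {u s : ℕ} (hus : u ≤ s) (hs : s < per σ b)
    (hu : u < per σ c) :
    FS f S (σ * swap ((σ ^ s) b) ((σ ^ u) c)) =
      - FS f (S.image (fun d => if d = c then ((σ * swap b c) ^ (s - u)) c else d))
        (σ * swap b c * swap b (((σ * swap b c) ^ (s - u)) c)) := by
  have hn : ¬ σ.SameCycle b c := hA b hb c hc hbc
  have hn' : ¬ σ.SameCycle c b := fun h => hn h.symm
  set ρ := σ * swap b c with hρ
  set g1 : Perm α := ri σ b s * ri σ c u with hg1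
  have c1 : g1 * σ = σ * g1 := by
    rw [hg1, mul_assoc, ri_comm, ← mul_assoc, ri_comm, mul_assoc]
  have a1 : g1 ((σ ^ s) b) = b := by
    rw [hg1, Perm.mul_apply, ri_fix σ c _ (fun h => hn' (h.trans (same_pow σ b s).symm)),
      ri_apply σ b _ (same_pow σ b s)]
    simp
  have a2 : g1 ((σ ^ u) c) = c := by
    rw [hg1, Perm.mul_apply, ri_apply σ c _ (same_pow σ c u)]
    simp only [Perm.inv_def, Equiv.symm_apply_apply]
    exact ri_fix σ b c hn s
  have a3 : g1 b = (σ ^ s)⁻¹ b := by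
    rw [hg1, Perm.mul_apply, ri_fix σ c b hn', ri_apply σ b b (SameCycle.refl _ _)]
  have a4 : g1 c = (σ ^ u)⁻¹ c := by
    rw [hg1, Perm.mul_apply, ri_apply σ c c (SameCycle.refl _ _),
      ri_fix σ b _ (fun h => hn (h.trans (same_pow_inv σ c u).symm))]
  have a5 : ∀ d ∈ S, d ≠ b → d ≠ c → g1 d = d := by
    intro d hd hdb hdc
    rw [hg1, Perm.mul_apply, ri_fix σ c d (hA c hc d hd (Ne.symm hdc)),
      ri_fix σ b d (hA b hb d hd (Ne.symm hdb))]
  have step1 : FS f S (σ * swap ((σ ^ s) b) ((σ ^ u) c)) = FS f (S.image g1) ρ := by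
    rw [conj_step hf c1, a1, a2]
  have hmm : g1 b ≠ g1 c := fun h => hbc (g1.injective h)
  have step2 : FS f (S.image g1) ρ = - FS f (S.image g1) (ρ * swap (g1 b) (g1 c)) := by
    rw [FS_swap f (Finset.mem_image_of_mem _ hb) (Finset.mem_image_of_mem _ hc) hmm, neg_neg]
  set g3 : Perm α := (ρ.cycleOf b) ^ s with hg3
  have c3 : g3 * ρ = ρ * g3 := cyc_pow_comm ρ b s
  -- the cycle structure of ρ
  have r1 : (ρ ^ s) (g1 b) = b := by rw [a3]; exact rho_back hn hs
  have r3 : (ρ ^ u) (g1 c) = c := by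
    rw [a4, hρ, swap_comm]; exact rho_back hn' hu
  have r2 : (ρ ^ s) (g1 c) = (ρ ^ (s - u)) c := by
    have : s = (s - u) + u := by omega
    conv_lhs => rw [this]
    rw [pow_add, Perm.mul_apply, r3]
  have sbc : ρ.SameCycle b c := by
    have h1 := rho_c hn (per_pos σ b) le_rfl
    rw [pow_per] at h1
    exact SameCycle.symm ⟨per σ b, by simpa using h1⟩
  have s1 : ρ.SameCycle b (g1 b) := SameCycle.symm ⟨s, by simpa using r1⟩
  have s2 : ρ.SameCycle b (g1 c) := by
    have : ρ.SameCycle (g1 c) c := ⟨u, by simpa using r3⟩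
    exact sbc.trans this.symm
  have b1 : g3 (g1 b) = b := by rw [hg3, cyc_pow_apply ρ b _ s1, r1]
  have b2 : g3 (g1 c) = (ρ ^ (s - u)) c := by rw [hg3, cyc_pow_apply ρ b _ s2, r2]
  have step3 : FS f (S.image g1) (ρ * swap (g1 b) (g1 c)) =
      FS f ((S.image g1).image g3) (ρ * swap b ((ρ ^ (s - u)) c)) := by
    rw [conj_step hf c3, b1, b2]
  rw [step1, step2, step3]
  congr 2
  rw [Finset.image_image]
  apply Finset.image_congr
  intro d hd
  rw [Finset.mem_coe] at hd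
  show g3 (g1 d) = if d = c then (ρ ^ (s - u)) c else d
  by_cases hdc : d = c
  · rw [if_pos hdc, hdc, b2]
  · rw [if_neg hdc]
    by_cases hdb : d = b
    · rw [hdb, b1]
    · rw [a5 d hd hdb hdc, hg3]
      exact cyc_pow_fix ρ b d (not_same_rho (hA d hd b hb hdb) (hA d hd c hc hdc)) s

/-- (E2) -/
lemma E2 {f : Perm α → ℝ} (hf : Cls f) {σ : Perm α} {S : Finset α} (hA : Adm σ S) {b c : α}
    (hb : b ∈ S) (hc : c ∈ S) (hbc : b ≠ c) {s : ℕ} (hs : s < per σ b) (hu : s < per σ c) :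
    FS f S (σ * swap ((σ ^ s) b) ((σ ^ s) c)) = - FS f S σ := by
  rw [E0 hf hA hb hc hbc le_rfl hs hu, Nat.sub_self, pow_zero, Perm.one_apply, mul_assoc,
    swap_mul_self, mul_one]
  congr 2
  have : (fun d : α => if d = c then c else d) = id := by
    funext d
    split_ifs with h
    · exact h.symm
    · rfl
  rw [this, Finset.image_id]

lemma swap3 {b c e : α} (hbc : b ≠ c) (hbe : b ≠ e) (hce : c ≠ e) :
    swap b e * swap c e = swap b c * swap b e := by
  ext x
  simp only [Perm.mul_apply]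
  by_cases h1 : x = b
  · subst h1
    rw [swap_apply_of_ne_of_ne hbc hbe, swap_apply_left, swap_apply_of_ne_of_ne (Ne.symm hbe) (Ne.symm hce)]
  · by_cases h2 : x = c
    · subst h2
      rw [swap_apply_left, swap_apply_right, swap_apply_of_ne_of_ne (Ne.symm hbc) hce, swap_apply_right]
    · by_cases h3 : x = e
      · subst h3
        rw [swap_apply_right, swap_apply_of_ne_of_ne (Ne.symm hbc) hce, swap_apply_right, swap_apply_left]
      · rw [swap_apply_of_ne_of_ne h2 h3, swap_apply_of_ne_of_ne h1 h3, swap_apply_of_ne_of_ne h1 h2]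

/-- the value at the doubly modified permutation -/
noncomputable def PP (f : Perm α → ℝ) (S : Finset α) (σ : Perm α) (b c : α) (u s : ℕ) : ℝ :=
  FS f S (σ * swap ((σ ^ u) b) ((σ ^ s) b) * swap c ((σ ^ s) b))

/-- (E1) -/
lemma E1 {f : Perm α → ℝ} (hf : Cls f) {σ : Perm α} {S : Finset α} (hA : Adm σ S) {b c : α}
    (hb : b ∈ S) (hc : c ∈ S) (hbc : b ≠ c) {u s : ℕ} (hus : u < s) (hs : s < per σ b)
    (hu : u < per σ c) :
    FS f S (σ * swap ((σ ^ s) b) ((σ ^ u) c)) = - PP f S σ b c u s := by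
  have hn : ¬ σ.SameCycle b c := hA b hb c hc hbc
  have hn' : ¬ σ.SameCycle c b := fun h => hn h.symm
  obtain ⟨w, hw0, rfl⟩ : ∃ w, 0 < w ∧ s = w + u := ⟨s - u, by omega, by omega⟩
  rw [E0 hf hA hb hc hbc hus.le hs hu, show w + u - u = w by omega]
  unfold PP
  congr 1
  set e := (σ ^ w) b with he
  set ρ := σ * swap b c with hρ
  have hce : ((σ * swap b c) ^ w) c = e := rho_c hn hw0 (by omega)
  rw [hce]
  -- rewrite the right-hand side
  set g2 : Perm α := ri σ b u with hg2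
  have c2 : g2 * σ = σ * g2 := ri_comm σ b u
  have a1 : g2 ((σ ^ u) b) = b := by
    rw [hg2, ri_apply σ b _ (same_pow σ b u)]; simp
  have a2 : g2 ((σ ^ (w + u)) b) = e := by
    rw [hg2, ri_apply σ b _ (same_pow σ b _), add_comm w u, pow_add, Perm.mul_apply]; simp [he]
  have a3 : g2 c = c := ri_fix σ b c hn u
  have a4 : g2 b = (σ ^ u)⁻¹ b := ri_apply σ b b (SameCycle.refl _ _) u
  have a5 : ∀ d ∈ S, d ≠ b → g2 d = d := by
    intro d hd hdb
    exact ri_fix σ b d (hA b hb d hd (Ne.symm hdb)) u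
  have hbe : b ≠ e := fun h => pow_ne_self hw0 (by omega) (h ▸ he.symm : (σ ^ w) b = b)
  have hcne : c ≠ e := fun h => pow_ne_c hn w h.symm
  rw [conj_step2 hf c2 S ((σ ^ u) b) ((σ ^ (w + u)) b) c ((σ ^ (w + u)) b), a1, a2, a3,
    mul_assoc σ (swap b e), swap3 hbc hbe hcne, ← mul_assoc σ (swap b c), ← hρ]
  set π := ρ * swap b e with hπ
  -- action of π
  have pne : ∀ y, y ≠ b → y ≠ c → y ≠ e → π y = σ y := by
    intro y h1 h2 h3
    rw [hπ, Perm.mul_apply, swap_apply_of_ne_of_ne h1 h3, hρ, Perm.mul_apply,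
      swap_apply_of_ne_of_ne h1 h2]
  have pb : π b = (σ ^ (w + 1)) b := by
    rw [hπ, Perm.mul_apply, swap_apply_left, hρ, Perm.mul_apply,
      swap_apply_of_ne_of_ne (Ne.symm hbe) (Ne.symm hcne), he, pow_succ', Perm.mul_apply]
  have pc : π c = σ b := by
    rw [hπ, Perm.mul_apply, swap_apply_of_ne_of_ne (Ne.symm hbc) hcne, hρ, Perm.mul_apply,
      swap_apply_right]
  have pe1 : π e = σ c := by
    rw [hπ, Perm.mul_apply, swap_apply_right, hρ, Perm.mul_apply, swap_apply_left]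
  have nbc : ¬ π.SameCycle b c := by
    apply not_same_of_inv (T := {y | ∃ j, w < j ∧ j ≤ per σ b ∧ y = (σ ^ j) b})
    · rintro x ⟨j, h1, h2, rfl⟩
      by_cases hj : j = per σ b
      · rw [hj, pow_per, pb]
        exact ⟨w + 1, by omega, by omega, rfl⟩
      · refine ⟨j + 1, by omega, by omega, ?_⟩
        rw [pne _ (pow_ne_self (by omega) (by omega)) (pow_ne_c hn j)
          (Ne.symm (pow_ne h1 (by omega))), pow_succ', Perm.mul_apply]
    · exact ⟨per σ b, by omega, le_rfl, (pow_per σ b).symm⟩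
    · rintro ⟨j, _, _, h⟩
      exact pow_ne_c hn j h.symm
  have q1 : (π ^ u) ((σ ^ u)⁻¹ b) = b := by
    rw [pow_eq_of_agree (σ := σ)]
    · simp
    · intro j hj
      apply pne
      · exact back_ne_b (by omega) hj
      · exact back_ne_c hn
      · intro h1
        have h2 : (σ ^ (u - j)) ((σ ^ j) ((σ ^ u)⁻¹ b)) = b := by
          rw [← Perm.mul_apply, ← pow_add, show u - j + j = u by omega]
          simp
        rw [h1, he, ← Perm.mul_apply, ← pow_add] at h2
        exact pow_ne_self (by omega) (by omega) h2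
  have q2 : (π ^ w) c = e := by
    obtain ⟨k, rfl⟩ : ∃ k, w = k + 1 := ⟨w - 1, by omega⟩
    rw [pow_succ, Perm.mul_apply, pc, pow_eq_of_agree (σ := σ), he, pow_succ, Perm.mul_apply]
    intro j hj
    have h2 : (σ ^ j) (σ b) = (σ ^ (j+1)) b := by rw [pow_succ, Perm.mul_apply]
    rw [h2]
    exact pne _ (pow_ne_self (by omega) (by omega)) (pow_ne_c hn _) (pow_ne (by omega) (by omega))
  have s1 : π.SameCycle b ((σ ^ u)⁻¹ b) := SameCycle.symm ⟨u, by simpa using q1⟩
  have s2 : π.SameCycle c e := ⟨w, by simpa using q2⟩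
  set g4 : Perm α := (π.cycleOf b) ^ u * (π.cycleOf c) ^ w with hg4
  have c4 : g4 * π = π * g4 := by
    rw [hg4, mul_assoc, cyc_pow_comm, ← mul_assoc, cyc_pow_comm, mul_assoc]
  have b1 : g4 ((σ ^ u)⁻¹ b) = b := by
    rw [hg4, Perm.mul_apply, cyc_pow_fix π c _ (fun h => nbc (s1.trans h.symm)),
      cyc_pow_apply π b _ s1, q1]
  have b2 : g4 c = e := by
    rw [hg4, Perm.mul_apply, cyc_pow_apply π c _ (SameCycle.refl _ _), q2,
      cyc_pow_fix π b _ (fun h => nbc (h.trans s2.symm))]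
  have b3 : ∀ d ∈ S, d ≠ b → d ≠ c → g4 d = d := by
    intro d hd hdb hdc
    have hT : ∀ x ∈ {y | σ.SameCycle d y}, π x ∈ {y | σ.SameCycle d y} := by
      intro x hx
      have hxb : x ≠ b := by rintro rfl; exact hA d hd x hb hdb hx
      have hxc : x ≠ c := by rintro rfl; exact hA d hd x hc hdc hx
      have hxe : x ≠ e := by
        rintro rfl
        exact hA d hd b hb hdb (hx.trans (same_pow σ b w).symm)
      rw [pne x hxb hxc hxe]
      exact hx.trans ⟨1, by simp⟩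
    have h1 : ¬ π.SameCycle d b := not_same_of_inv hT (SameCycle.refl _ _) (hA d hd b hb hdb)
    have h2 : ¬ π.SameCycle d c := not_same_of_inv hT (SameCycle.refl _ _) (hA d hd c hc hdc)
    rw [hg4, Perm.mul_apply, cyc_pow_fix π c d (fun h => h2 h.symm),
      cyc_pow_fix π b d (fun h => h1 h.symm)]
  rw [← FS_comm hf c4 (S.image g2)]
  congr 1
  rw [Finset.image_image]
  apply Finset.image_congr
  intro d hd
  rw [Finset.mem_coe] at hd
  show (if d = c then e else d) = g4 (g2 d)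
  by_cases hdc : d = c
  · rw [if_pos hdc, hdc, a3, b2]
  · rw [if_neg hdc]
    by_cases hdb : d = b
    · rw [hdb, a4, b1]
    · rw [a5 d hd hdb, b3 d hd hdb hdc]

end Pool.Agent.RandTransp
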