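import Mathlib
import Pool.Agent.RandTransp.Core

set_option autoImplicit false
set_option linter.unusedSectionVars false
open Equiv Equiv.Perm Finset

namespace Pool.Agent.RandTransp

variable {α : Type*} [Fintype α] [DecidableEq α]

lemma inv_swap {σ : Perm α} {b x y : α} (hx : ¬ σ.SameCycle b x) (hy : ¬ σ.SameCycle b y) :
    ∀ z ∈ {z | σ.SameCycle b z}, (σ * swap x y) z ∈ {z | σ.SameCycle b z} := by
  intro z hz
  have h1 : z ≠ x := by rintro rfl; exact hx hz
  have h2 : z ≠ y := by rintro rfl; exact hy hz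
  rw [agree2 σ h1 h2]
  exact SameCycle.trans hz ⟨1, by simp⟩

lemma inv_swap2 {σ : Perm α} {b x y x' y' : α} (hx : ¬ σ.SameCycle b x) (hy : ¬ σ.SameCycle b y)
    (hx' : ¬ σ.SameCycle b x') (hy' : ¬ σ.SameCycle b y') :
    ∀ z ∈ {z | σ.SameCycle b z}, (σ * swap x y * swap x' y') z ∈ {z | σ.SameCycle b z} := by
  intro z hz
  have h1 : z ≠ x' := by rintro rfl; exact hx' hz
  have h2 : z ≠ y' := by rintro rfl; exact hy' hz
  rw [agree2 (σ * swap x y) h1 h2]
  exact inv_swap hx hy z hz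

lemma caseA {σ : Perm α} {S : Finset α} (hA : Adm σ S) {x : α} (y : α)
    (hx : ∀ b ∈ S, ¬ σ.SameCycle b x) : Adm (σ * swap x y) S := by
  intro b hb c hc hbc
  by_cases hy : σ.SameCycle b y
  · have hy' : ¬ σ.SameCycle c y := fun h => hA b hb c hc hbc (hy.trans h.symm)
    intro h
    exact not_same_of_inv (inv_swap (hx c hc) hy') (SameCycle.refl _ _)
      (hA c hc b hb (Ne.symm hbc)) h.symm
  · exact not_same_of_inv (inv_swap (hx b hb) hy) (SameCycle.refl _ _) (hA b hb c hc hbc)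

lemma not_same_pow {σ : Perm α} {b d : α} (h : ¬ σ.SameCycle d b) (j : ℕ) :
    ¬ σ.SameCycle d ((σ ^ j) b) := fun h' => h (h'.trans (same_pow σ b j).symm)

/-- (a1) -/
lemma adm1 {σ : Perm α} {S : Finset α} (hA : Adm σ S) {b : α} (hb : b ∈ S) {u s : ℕ} (hus : u < s)
    (hs : s < per σ b) :
    Adm (σ * swap ((σ ^ u) b) ((σ ^ s) b)) (insert ((σ ^ s) b) S) := by
  set π := σ * swap ((σ ^ u) b) ((σ ^ s) b) with hπ
  have key : ∀ b1 ∈ S, b1 ≠ b → ∀ b2 ∈ insert ((σ ^ s) b) S, b1 ≠ b2 → ¬ π.SameCycle b1 b2 := by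
    intro b1 h1 h1b b2 h2 h12
    have hn := hA b1 h1 b hb h1b
    apply not_same_of_inv (inv_swap (not_same_pow hn u) (not_same_pow hn s)) (SameCycle.refl _ _)
    rw [Finset.mem_insert] at h2
    rcases h2 with rfl | h2
    · exact not_same_pow hn s
    · exact hA b1 h1 b2 h2 h12
  have key2 : ¬ π.SameCycle ((σ ^ s) b) b := by
    apply not_same_of_inv (T := {y | ∃ j, u < j ∧ j ≤ s ∧ y = (σ ^ j) b})
    · rintro x ⟨j, h1, h2, rfl⟩
      by_cases hj : j = s
      · refine ⟨u + 1, by omega, by omega, ?_⟩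
        rw [hj, hπ, Perm.mul_apply, swap_apply_right, pow_succ', Perm.mul_apply]
      · refine ⟨j + 1, by omega, by omega, ?_⟩
        rw [hπ, agree2 σ (Ne.symm (pow_ne h1 (by omega))) (pow_ne (by omega) (by omega)), pow_succ',
          Perm.mul_apply]
    · exact ⟨s, hus, le_rfl, rfl⟩
    · rintro ⟨j, h1, h2, h3⟩
      exact pow_ne_self (by omega) (by omega) h3.symm
  intro b1 h1 b2 h2 h12
  by_cases c1 : b1 ∈ S ∧ b1 ≠ b
  · exact key b1 c1.1 c1.2 b2 h2 h12
  · by_cases c2 : b2 ∈ S ∧ b2 ≠ b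
    · exact fun h => key b2 c2.1 c2.2 b1 h1 (Ne.symm h12) h.symm
    · rw [Finset.mem_insert] at h1 h2
      have e1 : b1 = (σ ^ s) b ∨ b1 = b := by tauto
      have e2 : b2 = (σ ^ s) b ∨ b2 = b := by tauto
      rcases e1 with rfl | rfl <;> rcases e2 with rfl | rfl
      · exact absurd rfl h12
      · exact key2
      · exact fun h => key2 h.symm
      · exact absurd rfl h12

/-- (a2) -/
lemma adm2 {σ : Perm α} {S : Finset α} (hA : Adm σ S) {b : α} (hb : b ∈ S) (u s : ℕ) :
    Adm (σ * swap ((σ ^ u) b) ((σ ^ s) b) * swap b ((σ ^ s) b)) S := by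
  have key : ∀ b1 ∈ S, b1 ≠ b → ∀ b2 ∈ S, b1 ≠ b2 →
      ¬ (σ * swap ((σ ^ u) b) ((σ ^ s) b) * swap b ((σ ^ s) b)).SameCycle b1 b2 := by
    intro b1 h1 h1b b2 h2 h12
    have hn := hA b1 h1 b hb h1b
    exact not_same_of_inv (inv_swap2 (not_same_pow hn u) (not_same_pow hn s) hn (not_same_pow hn s))
      (SameCycle.refl _ _) (hA b1 h1 b2 h2 h12)
  intro b1 h1 b2 h2 h12
  by_cases c1 : b1 = b
  · exact fun h => key b2 h2 (fun h' => h12 (c1.trans h'.symm)) b1 h1 (Ne.symm h12) h.symm
  · exact key b1 h1 c1 b2 h2 h12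

/-- (a4) -/
lemma adm4 {σ : Perm α} {S : Finset α} (hA : Adm σ S) {b c : α} (hb : b ∈ S) (hc : c ∈ S)
    (hbc : b ≠ c) {u s : ℕ} (hus : u < s) (hs : s < per σ b) :
    Adm (σ * swap ((σ ^ u) b) ((σ ^ s) b) * swap c ((σ ^ s) b)) S := by
  have hn : ¬ σ.SameCycle b c := hA b hb c hc hbc
  set π := σ * swap ((σ ^ u) b) ((σ ^ s) b) * swap c ((σ ^ s) b) with hπ
  have key : ∀ b1 ∈ S, b1 ≠ b → b1 ≠ c → ∀ b2 ∈ S, b1 ≠ b2 → ¬ π.SameCycle b1 b2 := by
    intro b1 h1 h1b h1c b2 h2 h12
    have hn := hA b1 h1 b hb h1b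
    have hn' := hA b1 h1 c hc h1c
    exact not_same_of_inv (inv_swap2 (not_same_pow hn u) (not_same_pow hn s) hn' (not_same_pow hn s))
      (SameCycle.refl _ _) (hA b1 h1 b2 h2 h12)
  have key2 : ¬ π.SameCycle b c := by
    apply not_same_of_inv (T := {y | ∃ j, s < j ∧ j ≤ u + per σ b ∧ y = (σ ^ j) b})
    · rintro x ⟨j, h1, h2, rfl⟩
      by_cases hj : j = u + per σ b
      · refine ⟨s + 1, by omega, by omega, ?_⟩
        have e1 : (σ ^ j) b = (σ ^ u) b := by rw [hj, pow_add, Perm.mul_apply, pow_per]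
        have e2 : (σ ^ u) b ≠ c := pow_ne_c hn u
        have e3 : (σ ^ u) b ≠ (σ ^ s) b := pow_ne hus (by omega)
        rw [e1, hπ, Perm.mul_apply, swap_apply_of_ne_of_ne e2 e3, Perm.mul_apply, swap_apply_left,
          pow_succ', Perm.mul_apply]
      · refine ⟨j + 1, by omega, by omega, ?_⟩
        have e1 : (σ ^ j) b ≠ c := pow_ne_c hn j
        have e2 : (σ ^ j) b ≠ (σ ^ s) b := Ne.symm (pow_ne h1 (by omega))
        have e3 : (σ ^ j) b ≠ (σ ^ u) b := Ne.symm (pow_ne (by omega) (by omega))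
        rw [hπ, agree2 _ e1 e2, agree2 σ e3 e2, pow_succ', Perm.mul_apply]
    · exact ⟨per σ b, by omega, by omega, (pow_per σ b).symm⟩
    · rintro ⟨j, _, _, h⟩
      exact pow_ne_c hn j h.symm
  intro b1 h1 b2 h2 h12
  by_cases c1 : b1 ≠ b ∧ b1 ≠ c
  · exact key b1 h1 c1.1 c1.2 b2 h2 h12
  · by_cases c2 : b2 ≠ b ∧ b2 ≠ c
    · exact fun h => key b2 h2 c2.1 c2.2 b1 h1 (Ne.symm h12) h.symm
    · have e1 : b1 = b ∨ b1 = c := by tauto
      have e2 : b2 = b ∨ b2 = c := by tauto
      rcases e1 with rfl | rfl <;> rcases e2 with rfl | rfl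
      · exact absurd rfl h12
      · exact key2
      · exact fun h => key2 h.symm
      · exact absurd rfl h12

/-- the cone -/
def Cone (f : Perm α → ℝ) : Prop := Cls f ∧ ∀ S σ, Adm σ S → 0 ≤ FS f S σ

lemma PP_nonneg {f : Perm α → ℝ} (hf : Cone f) {σ : Perm α} {S : Finset α} (hA : Adm σ S) {b c : α}
    (hb : b ∈ S) (hc : c ∈ S) (hbc : b ≠ c) {u s : ℕ} (hus : u < s) (hs : s < per σ b) :
    0 ≤ PP f S σ b c u s := hf.2 _ _ (adm4 hA hb hc hbc hus hs)

lemma caseB {f : Perm α → ℝ} (hf : Cone f) {σ : Perm α} {S : Finset α} (hA : Adm σ S) {b : α}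
    (hb : b ∈ S) {u s : ℕ} (hus : u < s) (hs : s < per σ b) :
    ∑ c ∈ S.erase b, PP f S σ b c u s ≤ FS f S (σ * swap ((σ ^ u) b) ((σ ^ s) b)) := by
  have hz : (σ ^ s) b ∉ S := by
    intro h
    exact hA b hb _ h (Ne.symm (pow_ne_self (by omega) hs)) (same_pow σ b s)
  have h1 := FS_insert f hz (σ * swap ((σ ^ u) b) ((σ ^ s) b))
  have h2 := hf.2 _ _ (adm1 hA hb hus hs)
  have h3 := hf.2 _ _ (adm2 hA hb u s)
  rw [← Finset.add_sum_erase S _ hb] at h1
  unfold PP
  linarith

noncomputable def orb (σ : Perm α) (b : α) : Finset α := (range (per σ b)).image (fun j => (σ ^ j) b)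

lemma mem_orb {σ : Perm α} {b x : α} : x ∈ orb σ b ↔ σ.SameCycle b x := by
  unfold orb
  rw [Finset.mem_image]
  constructor
  · rintro ⟨j, _, rfl⟩
    exact same_pow σ b j
  · intro h
    obtain ⟨i, hi, h2⟩ := exists_lt_per h
    exact ⟨i, Finset.mem_range.mpr hi, h2⟩

lemma orb_inj (σ : Perm α) (b : α) : Set.InjOn (fun j => (σ ^ j) b) (range (per σ b) : Set ℕ) := by
  intro i hi j hj h
  rw [Finset.mem_coe, Finset.mem_range] at hi hj
  rcases lt_trichotomy i j with h1 | h1 | h1
  · exact absurd h (pow_ne h1 (by omega))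
  · exact h1
  · exact absurd h.symm (pow_ne h1 (by omega))

lemma per_le (σ : Perm α) (b : α) : per σ b ≤ Fintype.card α := by
  have h1 : (orb σ b).card = per σ b := by
    unfold orb
    rw [Finset.card_image_of_injOn (orb_inj σ b), Finset.card_range]
  rw [← h1]
  exact Finset.card_le_univ _

lemma sum_orb (σ : Perm α) (b : α) (h : α → ℝ) :
    ∑ x ∈ orb σ b, h x = ∑ j ∈ range (per σ b), h ((σ ^ j) b) := by
  unfold orb
  rw [Finset.sum_image (orb_inj σ b)]

lemma sum_M {σ : Perm α} {S : Finset α} (hA : Adm σ S) (h : α → ℝ) :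
    ∑ x ∈ S.biUnion (orb σ), h x = ∑ b ∈ S, ∑ j ∈ range (per σ b), h ((σ ^ j) b) := by
  rw [Finset.sum_biUnion]
  · exact Finset.sum_congr rfl (fun b _ => sum_orb σ b h)
  · intro b hb c hc hbc
    rw [Function.onFun, Finset.disjoint_left]
    intro x h1 h2
    rw [mem_orb] at h1 h2
    exact hA b hb c hc hbc (h1.trans h2.symm)

noncomputable def QQ (f : Perm α → ℝ) (S : Finset α) (σ : Perm α) (b c : α) : ℝ :=
  ∑ s ∈ range (per σ b), ∑ u ∈ range s, PP f S σ b c u s

lemma ite_sum_le {p s : ℕ} {h : ℕ → ℝ} (hh : ∀ u < s, 0 ≤ h u) :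
    ∑ u ∈ range p, (if u < s then h u else 0) ≤ ∑ u ∈ range s, h u := by
  rw [← Finset.sum_filter]
  apply Finset.sum_le_sum_of_subset_of_nonneg
  · intro u hu
    rw [Finset.mem_filter] at hu
    exact Finset.mem_range.mpr hu.2
  · intro u hu _
    exact hh u (Finset.mem_range.mp hu)

lemma ite_sum_eq {p s : ℕ} (hs : s < p) (h : ℕ → ℝ) :
    ∑ u ∈ range p, (if u < s then h u else 0) = ∑ u ∈ range s, h u := by
  rw [← Finset.sum_filter]
  apply Finset.sum_congr _ (fun _ _ => rfl)
  ext u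
  rw [Finset.mem_filter, Finset.mem_range, Finset.mem_range]
  omega

lemma off_bound {f : Perm α → ℝ} (hf : Cone f) {σ : Perm α} {S : Finset α} (hA : Adm σ S) {b c : α}
    (hb : b ∈ S) (hc : c ∈ S) (hbc : b ≠ c) :
    - (QQ f S σ b c + QQ f S σ c b + (Fintype.card α : ℝ) * FS f S σ) ≤
      ∑ s ∈ range (per σ b), ∑ u ∈ range (per σ c), FS f S (σ * swap ((σ ^ s) b) ((σ ^ u) c)) := by
  have hF : 0 ≤ FS f S σ := hf.2 _ _ hA
  have h1 : ∀ s ∈ range (per σ b), ∀ u ∈ range (per σ c),
      FS f S (σ * swap ((σ ^ s) b) ((σ ^ u) c)) =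
        - ((if u < s then PP f S σ b c u s else 0) + (if s < u then PP f S σ c b s u else 0) +
          (if u = s then FS f S σ else 0)) := by
    intro s hs u hu
    rw [Finset.mem_range] at hs hu
    rcases lt_trichotomy u s with h | h | h
    · rw [if_pos h, if_neg (by omega), if_neg (by omega), E1 hf.1 hA hb hc hbc h hs hu]
      ring
    · subst h
      rw [if_neg (by omega), if_neg (by omega), if_pos rfl, E2 hf.1 hA hb hc hbc hs hu]
      ring
    · rw [if_neg (by omega), if_pos h, if_neg (by omega), swap_comm,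
        E1 hf.1 hA hc hb (Ne.symm hbc) h hu hs]
      ring
  rw [Finset.sum_congr rfl (fun s hs => Finset.sum_congr rfl (fun u hu => h1 s hs u hu))]
  simp_rw [Finset.sum_neg_distrib, Finset.sum_add_distrib]
  rw [neg_le_neg_iff]
  have k1 : ∑ s ∈ range (per σ b), ∑ u ∈ range (per σ c), (if u < s then PP f S σ b c u s else 0) ≤
      QQ f S σ b c := by
    apply Finset.sum_le_sum
    intro s hs
    rw [Finset.mem_range] at hs
    exact ite_sum_le (fun u hu => PP_nonneg hf hA hb hc hbc hu hs)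
  have k2 : ∑ s ∈ range (per σ b), ∑ u ∈ range (per σ c), (if s < u then PP f S σ c b s u else 0) ≤
      QQ f S σ c b := by
    rw [Finset.sum_comm]
    apply Finset.sum_le_sum
    intro u hu
    rw [Finset.mem_range] at hu
    exact ite_sum_le (fun s hs => PP_nonneg hf hA hc hb (Ne.symm hbc) hs hu)
  have k3 : ∑ s ∈ range (per σ b), ∑ u ∈ range (per σ c), (if u = s then FS f S σ else 0) ≤
      (Fintype.card α : ℝ) * FS f S σ := by
    calc ∑ s ∈ range (per σ b), ∑ u ∈ range (per σ c), (if u = s then FS f S σ else 0)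
        ≤ ∑ s ∈ range (per σ b), FS f S σ := by
          apply Finset.sum_le_sum
          intro s _
          rw [Finset.sum_ite_eq']
          split_ifs
          · exact le_rfl
          · exact hF
      _ = (per σ b : ℝ) * FS f S σ := by rw [Finset.sum_const, Finset.card_range, nsmul_eq_mul]
      _ ≤ (Fintype.card α : ℝ) * FS f S σ := by
          apply mul_le_mul_of_nonneg_right _ hF
          exact_mod_cast per_le σ b
  linarith

lemma diag_bound {f : Perm α → ℝ} (hf : Cone f) {σ : Perm α} {S : Finset α} (hA : Adm σ S) {b : α}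
    (hb : b ∈ S) :
    2 * ∑ c ∈ S.erase b, QQ f S σ b c ≤
      ∑ s ∈ range (per σ b), ∑ u ∈ range (per σ b), FS f S (σ * swap ((σ ^ s) b) ((σ ^ u) b)) := by
  have hF : 0 ≤ FS f S σ := hf.2 _ _ hA
  set W : ℕ → ℕ → ℝ := fun u s => ∑ c ∈ S.erase b, PP f S σ b c u s with hW
  have h1 : ∀ s ∈ range (per σ b), ∀ u ∈ range (per σ b),
      (if u < s then W u s else 0) + (if s < u then W s u else 0) ≤
      FS f S (σ * swap ((σ ^ s) b) ((σ ^ u) b)) := by
    intro s hs u hu
    rw [Finset.mem_range] at hs hu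
    rcases lt_trichotomy u s with h | h | h
    · rw [if_pos h, if_neg (by omega), add_zero, swap_comm]
      exact caseB hf hA hb h hs
    · subst h
      have h1 : (Equiv.refl α : Perm α) = 1 := rfl
      rw [if_neg (by omega), swap_self, h1, mul_one, add_zero]
      exact hF
    · rw [if_neg (by omega), if_pos h, zero_add]
      exact caseB hf hA hb h hu
  refine le_trans (le_of_eq ?_) (Finset.sum_le_sum (fun s hs => Finset.sum_le_sum (fun u hu => h1 s hs u hu)))
  simp_rw [Finset.sum_add_distrib]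
  have k2 : ∑ s ∈ range (per σ b), ∑ u ∈ range (per σ b), (if s < u then W s u else 0) =
      ∑ s ∈ range (per σ b), ∑ u ∈ range (per σ b), (if u < s then W u s else 0) := Finset.sum_comm
  rw [k2]
  have k1 : ∑ s ∈ range (per σ b), ∑ u ∈ range (per σ b), (if u < s then W u s else 0) =
      ∑ c ∈ S.erase b, QQ f S σ b c := by
    rw [Finset.sum_congr rfl (fun s hs => ite_sum_eq (Finset.mem_range.mp hs) (fun u => W u s))]
    simp only [hW]
    unfold QQ
    rw [Finset.sum_comm]
    apply Finset.sum_congr rfl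
    intro s _
    rw [Finset.sum_comm]
  rw [k1]
  ring

theorem main_ineq {f : Perm α → ℝ} (hf : Cone f) {σ : Perm α} {S : Finset α} (hA : Adm σ S) :
    0 ≤ ∑ x, ∑ y, FS f S (σ * swap x y) + (Fintype.card α : ℝ) ^ 3 * FS f S σ := by
  have hF : 0 ≤ FS f S σ := hf.2 _ _ hA
  set n : ℝ := (Fintype.card α : ℝ) with hn
  set M := S.biUnion (orb σ) with hM
  have step1 : ∑ x ∈ M, ∑ y ∈ M, FS f S (σ * swap x y) ≤ ∑ x, ∑ y, FS f S (σ * swap x y) := by
    rw [← Finset.sum_product', ← Finset.sum_product']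
    apply Finset.sum_le_sum_of_subset_of_nonneg
    · intro q _
      simp
    · rintro ⟨x, y⟩ _ hq
      rw [Finset.mem_product] at hq
      simp only at hq ⊢
      apply hf.2
      by_cases hx : x ∈ M
      · have hy : y ∉ M := fun h => hq ⟨hx, h⟩
        rw [swap_comm]
        apply caseA hA
        intro b hb h
        apply hy
        rw [hM, Finset.mem_biUnion]
        exact ⟨b, hb, mem_orb.mpr h⟩
      · apply caseA hA
        intro b hb h
        apply hx
        rw [hM, Finset.mem_biUnion]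
        exact ⟨b, hb, mem_orb.mpr h⟩
  set G : α → α → ℝ := fun b c => ∑ s ∈ range (per σ b), ∑ u ∈ range (per σ c),
    FS f S (σ * swap ((σ ^ s) b) ((σ ^ u) c)) with hG
  have step2 : ∑ x ∈ M, ∑ y ∈ M, FS f S (σ * swap x y) = ∑ b ∈ S, ∑ c ∈ S, G b c := by
    rw [hM, sum_M hA]
    apply Finset.sum_congr rfl
    intro b _
    rw [hG]
    simp only
    rw [Finset.sum_comm (s := S)]
    apply Finset.sum_congr rfl
    intro s _
    rw [sum_M hA]
  set R : α → α → ℝ := fun b c => if b = c then 0 else QQ f S σ b c with hR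
  have step3 : ∀ b ∈ S, ∀ c ∈ S,
      (if b = c then 2 * ∑ c' ∈ S, R b c' else 0) - (R b c + R c b + n * FS f S σ) ≤ G b c := by
    intro b hb c hc
    by_cases hbc : b = c
    · subst hbc
      rw [if_pos rfl]
      have h1 := diag_bound hf hA hb
      have h2 : ∑ c' ∈ S, R b c' = ∑ c ∈ S.erase b, QQ f S σ b c := by
        rw [← Finset.add_sum_erase S _ hb]
        have : R b b = 0 := by simp [hR]
        rw [this, zero_add]
        apply Finset.sum_congr rfl
        intro c hc
        rw [Finset.mem_erase] at hc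
        simp [hR, Ne.symm hc.1]
      have h3 : R b b = 0 := by simp [hR]
      have h4 : 0 ≤ n * FS f S σ := mul_nonneg (by positivity) hF
      rw [h2, h3]
      have h5 : G b b = ∑ s ∈ range (per σ b), ∑ u ∈ range (per σ b),
        FS f S (σ * swap ((σ ^ s) b) ((σ ^ u) b)) := rfl
      rw [h5]
      linarith
    · rw [if_neg hbc]
      have h1 := off_bound hf hA hb hc hbc
      have h2 : R b c = QQ f S σ b c := by simp [hR, hbc]
      have h3 : R c b = QQ f S σ c b := by simp [hR, Ne.symm hbc]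
      rw [h2, h3]
      have h5 : G b c = ∑ s ∈ range (per σ b), ∑ u ∈ range (per σ c),
        FS f S (σ * swap ((σ ^ s) b) ((σ ^ u) c)) := rfl
      rw [h5]
      linarith
  have step4 := Finset.sum_le_sum (fun b hb => Finset.sum_le_sum (fun c hc => step3 b hb c hc))
  have step5 : ∑ b ∈ S, ∑ c ∈ S,
      ((if b = c then 2 * ∑ c' ∈ S, R b c' else 0) - (R b c + R c b + n * FS f S σ)) =
      - ((S.card : ℝ) * ((S.card : ℝ) * (n * FS f S σ))) := by
    simp_rw [Finset.sum_sub_distrib, Finset.sum_add_distrib]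
    have h1 : ∑ b ∈ S, ∑ c ∈ S, (if b = c then 2 * ∑ c' ∈ S, R b c' else 0) =
        2 * ∑ b ∈ S, ∑ c ∈ S, R b c := by
      rw [Finset.mul_sum]
      apply Finset.sum_congr rfl
      intro b hb
      rw [Finset.sum_ite_eq, if_pos hb]
    have h2 : ∑ b ∈ S, ∑ c ∈ S, R c b = ∑ b ∈ S, ∑ c ∈ S, R b c := Finset.sum_comm
    rw [h1, h2]
    simp only [Finset.sum_const, nsmul_eq_mul]
    ring
  have step6 : (S.card : ℝ) * ((S.card : ℝ) * (n * FS f S σ)) ≤ n ^ 3 * FS f S σ := by
    have h1 : (S.card : ℝ) ≤ n := by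
      rw [hn]
      exact_mod_cast Finset.card_le_univ S
    have h2 : (0:ℝ) ≤ S.card := by positivity
    have h3 : 0 ≤ n := by rw [hn]; positivity
    have h4 : (S.card : ℝ) * (S.card : ℝ) ≤ n * n := mul_le_mul h1 h1 h2 h3
    calc (S.card : ℝ) * ((S.card : ℝ) * (n * FS f S σ)) = ((S.card : ℝ) * S.card) * (n * FS f S σ) := by ring
      _ ≤ (n * n) * (n * FS f S σ) := mul_le_mul_of_nonneg_right h4 (mul_nonneg h3 hF)
      _ = n ^ 3 * FS f S σ := by ring
  linarith

/-- the cone is preserved by `J + n^3` -/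
theorem cone_step {f : Perm α → ℝ} (hf : Cone f) :
    Cone (fun σ => J f σ + (Fintype.card α : ℝ) ^ 3 * f σ) := by
  refine ⟨?_, ?_⟩
  · intro g σ
    simp only
    rw [Cls_J hf.1 g σ, hf.1 g σ]
  · intro S σ hA
    rw [FS_add, FS_J]
    exact main_ineq hf hA

/-- the indicator of the identity lies in the cone -/
theorem cone_one : Cone (fun σ : Perm α => if σ = 1 then (1:ℝ) else 0) := by
  refine ⟨?_, ?_⟩
  · intro g σ
    simp only
    have : g * σ * g⁻¹ = 1 ↔ σ = 1 := by
      rw [mul_inv_eq_one]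
      exact mul_eq_left
    simp only [this]
  · intro S σ hA
    unfold FS
    by_cases h : σ = 1
    · subst h
      apply le_of_lt
      rw [Finset.sum_eq_single 1]
      · simp
      · intro w _ hw
        simp [hw]
      · intro h
        exact absurd (mem_PS.mpr (fun _ _ => rfl)) h
    · apply le_of_eq
      symm
      apply Finset.sum_eq_zero
      intro w hw
      have : σ * w ≠ 1 := by
        intro h1
        apply h
        have hσ : w = σ⁻¹ := eq_inv_of_mul_eq_one_right h1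
        have h2 : ∀ x, σ x = x := by
          intro x
          rw [mem_PS] at hw
          have hfix : ∀ y, y ∉ S → σ y = y := by
            intro y hy
            have := hw y hy
            rw [hσ, Perm.inv_eq_iff_eq] at this
            exact this.symm
          by_cases hx : x ∈ S
          · by_cases hx2 : σ x ∈ S
            · by_contra hne
              exact hA x hx (σ x) hx2 (Ne.symm hne) ⟨1, by simp⟩
            · exact σ.injective (hfix _ hx2)
          · exact hfix x hx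
        ext x
        simpa using h2 x
      simp only [if_neg this, mul_zero]

end Pool.Agent.RandTransp
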