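import Mathlib
import Pool.Agent.RandTransp.Main

set_option autoImplicit false
set_option linter.unusedSectionVars false
open Equiv Equiv.Perm Finset

namespace Pool.Agent.RandTransp

variable {α : Type*} [Fintype α] [DecidableEq α]

lemma FS_single (f : Perm α → ℝ) (b : α) (σ : Perm α) : FS f {b} σ = f σ := by
  unfold FS
  have : PS ({b} : Finset α) = {1} := by
    ext w
    rw [mem_PS, Finset.mem_singleton]
    constructor
    · intro h
      have h1 : ∀ x, x ≠ b → w x = x := fun x hx => h x (by simpa using hx)
      ext x
      rw [Perm.one_apply]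
      by_cases hx : x = b
      · subst hx
        by_contra hne
        have h2 := h1 _ hne
        exact hne (w.injective h2)
      · exact h1 x hx
    · rintro rfl x _
      rfl
  rw [this, Finset.sum_singleton]
  simp

lemma merge_le {f : Perm α → ℝ} (hf : Cone f) {σ : Perm α} {a b : α} (h : ¬ σ.SameCycle a b) :
    f (σ * swap a b) ≤ f σ := by
  have hab : a ≠ b := by rintro rfl; exact h (SameCycle.refl _ _)
  have h1 := FS_insert f (S := {a}) (z := b) (by simpa using Ne.symm hab) σ
  rw [Finset.sum_singleton, FS_single, FS_single] at h1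
  have h2 : Adm σ (insert b {a}) := by
    intro x hx y hy hxy
    rw [Finset.mem_insert, Finset.mem_singleton] at hx hy
    rcases hx with rfl | rfl <;> rcases hy with rfl | rfl
    · exact absurd rfl hxy
    · exact fun h' => h h'.symm
    · exact h
    · exact absurd rfl hxy
  have h3 := hf.2 _ _ h2
  linarith

lemma rho_orb {σ : Perm α} {b c : α} (h : ¬ σ.SameCycle b c) {y : α} (hy : σ.SameCycle b y) :
    (σ * swap b c).SameCycle c y := by
  obtain ⟨i, hi, rfl⟩ := exists_lt_per hy
  by_cases h0 : i = 0
  · subst h0
    have h1 := rho_c h (per_pos σ b) le_rfl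
    rw [pow_per] at h1
    exact ⟨per σ b, by simpa using h1⟩
  · have h1 := rho_c h (w := i) (by omega) hi.le
    exact ⟨i, by simpa using h1⟩

lemma rho_bc {σ : Perm α} {b c : α} (h : ¬ σ.SameCycle b c) : (σ * swap b c).SameCycle b c :=
  (rho_orb h (SameCycle.refl _ _)).symm

lemma rho_same {σ : Perm α} {b c : α} (h : ¬ σ.SameCycle b c) {u v : α} (huv : σ.SameCycle u v) :
    (σ * swap b c).SameCycle u v := by
  by_cases hu : σ.SameCycle b u
  · exact (rho_orb h hu).symm.trans (rho_orb h (hu.trans huv))
  · by_cases hu' : σ.SameCycle c u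
    · have h' : ¬ σ.SameCycle c b := fun h'' => h h''.symm
      rw [swap_comm]
      exact (rho_orb h' hu').symm.trans (rho_orb h' (hu'.trans huv))
    · obtain ⟨i, hi, rfl⟩ := exists_lt_per huv
      refine ⟨i, ?_⟩
      have h1 : ((σ * swap b c) ^ i) u = (σ ^ i) u := by
        apply pow_eq_of_agree
        intro j _
        apply agree2
        · rintro h2
          apply hu
          rw [← h2]
          exact (same_pow σ u j).symm
        · rintro h2
          apply hu'
          rw [← h2]
          exact (same_pow σ u j).symm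
      simpa using h1

open Classical in
noncomputable def NN (σ : Perm α) : ℕ :=
  ((univ : Finset (α × α)).filter (fun q => ¬ σ.SameCycle q.1 q.2)).card

lemma NN_lt {σ : Perm α} {b c : α} (h : ¬ σ.SameCycle b c) : NN (σ * swap b c) < NN σ := by
  classical
  unfold NN
  apply Finset.card_lt_card
  rw [Finset.ssubset_iff_of_subset]
  · refine ⟨(b, c), ?_, ?_⟩
    · simp [h]
    · simp [rho_bc h]
  · intro q hq
    rw [Finset.mem_filter] at hq ⊢
    exact ⟨Finset.mem_univ _, fun h' => hq.2 (rho_same h h')⟩

lemma full_type {σ : Perm α} (hcard : 2 ≤ Fintype.card α) (h : ∀ a b, σ.SameCycle a b) :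
    σ.cycleType = {Fintype.card α} := by
  have hne : ∀ x, σ x ≠ x := by
    intro x hx
    obtain ⟨y, hy⟩ := Fintype.exists_ne_of_one_lt_card (by omega) x
    obtain ⟨i, hi⟩ := h x y
    apply hy
    rw [← hi]
    exact zpow_apply_eq_self_of_apply_eq_self hx i
  obtain ⟨x⟩ : Nonempty α := Fintype.card_pos_iff.mp (by omega)
  have hc : σ.IsCycle := ⟨x, hne x, fun y _ => h x y⟩
  rw [hc.cycleType]
  congr 1
  have : σ.support = univ := by
    ext y
    simp [hne y]
  rw [this]
  exact Finset.card_univ

theorem cycle_le {f : Perm α → ℝ} (hf : Cone f) (hcard : 2 ≤ Fintype.card α) {c : Perm α}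
    (hc : c.cycleType = {Fintype.card α}) (x : Perm α) : f c ≤ f x := by
  have key : ∀ k : ℕ, ∀ x : Perm α, NN x ≤ k → f c ≤ f x := by
    intro k
    induction k with
    | zero =>
      intro x hx
      by_cases h : ∀ a b, x.SameCycle a b
      · have h1 : IsConj x c := by
          rw [isConj_iff_cycleType_eq, full_type hcard h, hc]
        obtain ⟨g, hg⟩ := isConj_iff.mp h1
        rw [← hg, hf.1]
      · push Not at h
        obtain ⟨a, b, hab⟩ := h
        have := NN_lt hab
        omega
    | succ k ih =>
      intro x hx
      by_cases h : ∀ a b, x.SameCycle a b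
      · have h1 : IsConj x c := by
          rw [isConj_iff_cycleType_eq, full_type hcard h, hc]
        obtain ⟨g, hg⟩ := isConj_iff.mp h1
        rw [← hg, hf.1]
      · push Not at h
        obtain ⟨a, b, hab⟩ := h
        have h1 := NN_lt hab
        exact (ih (x * swap a b) (by omega)).trans (merge_le hf hab)
  exact key _ x le_rfl

/-- counting ordered pairs by the transposition they define -/
lemma sum_swap (h : Perm α → ℝ) :
    ∑ x, ∑ y, h (swap x y) = (Fintype.card α : ℝ) * h 1 +
      2 * ∑ τ : Perm α, (if τ.cycleType = {2} then h τ else 0) := by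
  classical
  have h1 : ∑ x : α, ∑ y : α, h (swap x y) =
      ∑ x : α, ∑ y : α, (if x = y then h 1 else 0) +
      ∑ x : α, ∑ y : α, (if x = y then 0 else h (swap x y)) := by
    rw [← Finset.sum_add_distrib]
    apply Finset.sum_congr rfl
    intro x _
    rw [← Finset.sum_add_distrib]
    apply Finset.sum_congr rfl
    intro y _
    by_cases hxy : x = y
    · subst hxy
      have h2 : (Equiv.refl α : Perm α) = 1 := rfl
      rw [if_pos rfl, if_pos rfl, swap_self, h2, add_zero]
    · rw [if_neg hxy, if_neg hxy, zero_add]
  rw [h1]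
  congr 1
  · simp
  · have h2 : ∑ x : α, ∑ y : α, (if x = y then 0 else h (swap x y)) =
        ∑ q ∈ (univ : Finset (α × α)).filter (fun q => q.1 ≠ q.2), h (swap q.1 q.2) := by
      rw [← Finset.sum_product', Finset.univ_product_univ, Finset.sum_filter]
      apply Finset.sum_congr rfl
      intro q _
      by_cases hq : q.1 = q.2
      · simp [hq]
      · simp [hq]
    have h3 : ∑ τ : Perm α, (if τ.cycleType = {2} then h τ else 0) =
        ∑ τ ∈ (univ : Finset (Perm α)).filter (fun τ => τ.IsSwap), h τ := by
      rw [Finset.sum_filter]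
      apply Finset.sum_congr rfl
      intro τ _
      simp only [isSwap_iff_cycleType]
    rw [h2, h3, Finset.mul_sum]
    have hmaps : ∀ q ∈ (univ : Finset (α × α)).filter (fun q => q.1 ≠ q.2),
        swap q.1 q.2 ∈ (univ : Finset (Perm α)).filter (fun τ => τ.IsSwap) := by
      intro q hq
      rw [Finset.mem_filter] at hq ⊢
      exact ⟨Finset.mem_univ _, q.1, q.2, hq.2, rfl⟩
    rw [← Finset.sum_fiberwise_of_maps_to hmaps]
    apply Finset.sum_congr rfl
    intro τ hτ
    rw [Finset.mem_filter] at hτ
    obtain ⟨a, b, hab, rfl⟩ := hτ.2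
    have h4 : ((univ : Finset (α × α)).filter (fun q => q.1 ≠ q.2)).filter
        (fun q => swap q.1 q.2 = swap a b) = {(a, b), (b, a)} := by
      ext ⟨x, y⟩
      simp only [Finset.mem_filter, Finset.mem_univ, true_and, Finset.mem_insert,
        Finset.mem_singleton, Prod.mk.injEq]
      constructor
      · rintro ⟨hxy, hs⟩
        have e1 : swap x y a = b := by rw [hs, swap_apply_left]
        by_cases hax : a = x
        · left
          refine ⟨hax.symm, ?_⟩
          rw [hax, swap_apply_left] at e1
          exact e1
        · by_cases hay : a = y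
          · right
            refine ⟨?_, hay.symm⟩
            rw [hay, swap_apply_right] at e1
            exact e1
          · rw [swap_apply_of_ne_of_ne hax hay] at e1
            exact absurd e1 hab
      · rintro (⟨rfl, rfl⟩ | ⟨rfl, rfl⟩)
        · exact ⟨hab, rfl⟩
        · exact ⟨Ne.symm hab, swap_comm _ _⟩
    rw [h4, Finset.sum_pair]
    · simp only
      rw [swap_comm b a]
      ring
    · intro h5
      rw [Prod.mk.injEq] at h5
      exact hab h5.1

end Pool.Agent.RandTransp
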