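import Mathlib
import Pool.Agent.RandTransp.Merge

set_option autoImplicit false
open Equiv Equiv.Perm Finset

namespace Pool.Agent.RandTransp

section
variable {m : Type*} [Fintype m] [DecidableEq m]

set_option backward.isDefEq.respectTransparency false in
open scoped Matrix.Norms.Operator in
lemma hasSum_exp (M : Matrix m m ℝ) :
    HasSum (fun k : ℕ => ((k.factorial : ℝ)⁻¹) • (M ^ k)) (NormedSpace.exp M) :=
  NormedSpace.exp_series_hasSum_exp' (𝕂 := ℝ) M

lemma hasSum_entry (M : Matrix m m ℝ) (i j : m) :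
    HasSum (fun k : ℕ => ((k.factorial : ℝ)⁻¹) * (M ^ k) i j) ((NormedSpace.exp M) i j) := by
  have h1 := hasSum_exp M
  have h2 : HasSum (fun k : ℕ => (((k.factorial : ℝ)⁻¹) • (M ^ k)) i) ((NormedSpace.exp M) i) :=
    (Pi.hasSum.mp h1) i
  exact (Pi.hasSum.mp h2) j

lemma exp_smul_one (c : ℝ) (i j : m) :
    (NormedSpace.exp (c • (1 : Matrix m m ℝ))) i j = Real.exp c * (1 : Matrix m m ℝ) i j := by
  have h1 := hasSum_entry (c • (1 : Matrix m m ℝ)) i j
  have h2 : HasSum (fun k : ℕ => ((k.factorial : ℝ)⁻¹) * c ^ k) (Real.exp c) := by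
    rw [Real.exp_eq_exp_ℝ]
    exact NormedSpace.exp_series_hasSum_exp' (𝕂 := ℝ) c
  have h3 := h2.mul_right ((1 : Matrix m m ℝ) i j)
  have h4 : (fun k : ℕ => ((k.factorial : ℝ)⁻¹) * c ^ k * (1 : Matrix m m ℝ) i j) =
      (fun k : ℕ => ((k.factorial : ℝ)⁻¹) * ((c • (1 : Matrix m m ℝ)) ^ k) i j) := by
    funext k
    rw [smul_pow, one_pow, Matrix.smul_apply, smul_eq_mul]
    ring
  rw [h4] at h3
  exact h1.unique h3

end

variable {n : ℕ}

/-- the transition matrix -/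
noncomputable def PM (n : ℕ) : Matrix (Perm (Fin n)) (Perm (Fin n)) ℝ :=
  Matrix.of fun a b : Equiv.Perm (Fin n) =>
    if (a⁻¹ * b).cycleType = {2} then (1 : ℝ) / (n.choose 2 : ℝ) else 0

noncomputable def AM (n : ℕ) : Matrix (Perm (Fin n)) (Perm (Fin n)) ℝ :=
  ((n : ℝ) * (n - 1)) • PM n + ((n : ℝ) + (n : ℝ) ^ 3) • (1 : Matrix (Perm (Fin n)) (Perm (Fin n)) ℝ)

lemma choose_two (h : 2 ≤ n) : (n : ℝ) * (n - 1) * (1 / (n.choose 2 : ℝ)) = 2 := by
  have h1 : ((n.choose 2 : ℕ) : ℝ) = (n : ℝ) * (n - 1) / 2 := Nat.cast_choose_two ℝ n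
  rw [h1]
  have h2 : (n : ℝ) ≠ 0 := by positivity
  have h3 : (n : ℝ) - 1 ≠ 0 := by
    have : (2 : ℝ) ≤ n := by exact_mod_cast h
    linarith
  field_simp

lemma row_step (h : 2 ≤ n) (r : Perm (Fin n) → ℝ) (σ : Perm (Fin n)) :
    ∑ a, r a * AM n a σ = J r σ + (Fintype.card (Fin n) : ℝ) ^ 3 * r σ := by
  have h1 : ∀ a, r a * AM n a σ = (if (a⁻¹ * σ).cycleType = {2} then 2 * r a else 0) +
      ((n : ℝ) + (n : ℝ) ^ 3) * (if a = σ then r a else 0) := by
    intro a
    unfold AM PM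
    rw [Matrix.add_apply, Matrix.smul_apply, Matrix.smul_apply, Matrix.of_apply, Matrix.one_apply]
    simp only [smul_eq_mul]
    have h2 := choose_two h
    split_ifs with h3 h4 h4
    · linear_combination (r a) * h2
    · linear_combination (r a) * h2
    · ring
    · ring
  simp_rw [h1]
  rw [Finset.sum_add_distrib, ← Finset.mul_sum, Finset.sum_ite_eq']
  simp only [Finset.mem_univ, if_true]
  have h2 : J r σ = (Fintype.card (Fin n) : ℝ) * r σ +
      2 * ∑ τ : Perm (Fin n), (if τ.cycleType = {2} then r (σ * τ) else 0) := by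
    have := sum_swap (fun τ : Perm (Fin n) => r (σ * τ))
    rw [mul_one] at this
    exact this
  have h3 : ∑ a : Perm (Fin n), (if (a⁻¹ * σ).cycleType = {2} then 2 * r a else 0) =
      2 * ∑ τ : Perm (Fin n), (if τ.cycleType = {2} then r (σ * τ) else 0) := by
    rw [Finset.mul_sum]
    apply Fintype.sum_bijective (fun a : Perm (Fin n) => σ⁻¹ * a)
    · exact (Equiv.mulLeft σ⁻¹).bijective
    · intro a
      have e1 : (σ⁻¹ * a).cycleType = (a⁻¹ * σ).cycleType := by
        rw [← Perm.cycleType_inv (σ⁻¹ * a), mul_inv_rev, inv_inv]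
      rw [e1, mul_inv_cancel_left]
      split_ifs <;> ring
  rw [h2, h3, Fintype.card_fin]
  ring

lemma row_cone (h : 2 ≤ n) (k : ℕ) : Cone (fun σ : Perm (Fin n) => ((AM n) ^ k) 1 σ) := by
  induction k with
  | zero =>
    have : (fun σ : Perm (Fin n) => ((AM n) ^ 0) 1 σ) = (fun σ => if σ = 1 then (1:ℝ) else 0) := by
      funext σ
      rw [pow_zero, Matrix.one_apply]
      simp only [eq_comm]
    rw [this]
    exact cone_one
  | succ k ih =>
    have : (fun σ : Perm (Fin n) => ((AM n) ^ (k+1)) 1 σ) =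
        (fun σ => J (fun σ : Perm (Fin n) => ((AM n) ^ k) 1 σ) σ +
          (Fintype.card (Fin n) : ℝ) ^ 3 * ((AM n) ^ k) 1 σ) := by
      funext σ
      rw [pow_succ, Matrix.mul_apply]
      exact row_step h _ σ
    rw [this]
    exact cone_step ih

lemma expA_le (h : 2 ≤ n) {s : ℝ} (hs : 0 ≤ s) {c : Perm (Fin n)} (hc : c.cycleType = {n})
    (x : Perm (Fin n)) : (NormedSpace.exp (s • AM n)) 1 c ≤ (NormedSpace.exp (s • AM n)) 1 x := by
  refine hasSum_le ?_ (hasSum_entry (s • AM n) 1 c) (hasSum_entry (s • AM n) 1 x)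
  intro k
  rw [smul_pow, Matrix.smul_apply, Matrix.smul_apply]
  apply mul_le_mul_of_nonneg_left _ (by positivity)
  simp only [smul_eq_mul]
  apply mul_le_mul_of_nonneg_left _ (by positivity)
  exact cycle_le (row_cone h k) (by simpa using h) (by simpa using hc) x

lemma tsum_eq (h : 2 ≤ n) (t : ℝ) (x : Perm (Fin n)) :
    (∑' k : ℕ, Real.exp (-t) * t ^ k / (k.factorial : ℝ) * ((PM n) ^ k) 1 x) =
      Real.exp (-t) * (Real.exp (-(t / (n * (n - 1))) * (n + (n:ℝ) ^ 3)) *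
        (NormedSpace.exp ((t / (n * (n - 1))) • AM n)) 1 x) := by
  have h0 : (n : ℝ) * (n - 1) ≠ 0 := by
    have : (2 : ℝ) ≤ n := by exact_mod_cast h
    have h2 : (n : ℝ) ≠ 0 := by linarith
    have h3 : (n : ℝ) - 1 ≠ 0 := by linarith
    exact mul_ne_zero h2 h3
  set s : ℝ := t / (n * (n - 1)) with hs
  have h1 : t • PM n = s • AM n + (-s * (n + (n:ℝ) ^ 3)) • (1 : Matrix (Perm (Fin n)) (Perm (Fin n)) ℝ) := by
    unfold AM
    rw [smul_add, smul_smul, smul_smul, add_assoc, ← add_smul]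
    have e1 : s * (n * (n - 1)) = t := by rw [hs]; exact div_mul_cancel₀ t h0
    have e2 : s * (n + (n:ℝ) ^ 3) + -s * (n + (n:ℝ) ^ 3) = 0 := by ring
    rw [e1, e2, zero_smul, add_zero]
  have h2 : NormedSpace.exp (t • PM n) = NormedSpace.exp (s • AM n) *
      NormedSpace.exp ((-s * (n + (n:ℝ) ^ 3)) • (1 : Matrix (Perm (Fin n)) (Perm (Fin n)) ℝ)) := by
    rw [h1]
    apply Matrix.exp_add_of_commute
    exact (Commute.one_right _).smul_right _
  have h3 : (NormedSpace.exp (t • PM n)) 1 x =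
      Real.exp (-s * (n + (n:ℝ) ^ 3)) * (NormedSpace.exp (s • AM n)) 1 x := by
    rw [h2, Matrix.mul_apply]
    simp_rw [exp_smul_one]
    rw [Finset.sum_eq_single x]
    · rw [Matrix.one_apply_eq]; ring
    · intro y _ hy
      rw [Matrix.one_apply_ne hy]; ring
    · intro h; exact absurd (Finset.mem_univ x) h
  have h4 := (hasSum_entry (t • PM n) 1 x).mul_left (Real.exp (-t))
  rw [h3] at h4
  rw [← h4.tsum_eq]
  apply tsum_congr
  intro k
  rw [smul_pow, Matrix.smul_apply, smul_eq_mul]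
  field_simp

theorem final {t : ℝ} (ht : 0 ≤ t) {c : Perm (Fin n)} (x : Perm (Fin n)) (hc : c.cycleType = {n}) :
    (∑' k : ℕ, Real.exp (-t) * t ^ k / (k.factorial : ℝ) * ((PM n) ^ k) 1 c) ≤
      (∑' k : ℕ, Real.exp (-t) * t ^ k / (k.factorial : ℝ) * ((PM n) ^ k) 1 x) := by
  have h : 2 ≤ n := Perm.two_le_of_mem_cycleType (σ := c) (by rw [hc]; exact Multiset.mem_singleton_self n)
  rw [tsum_eq h, tsum_eq h]
  apply mul_le_mul_of_nonneg_left _ (Real.exp_pos _).le
  apply mul_le_mul_of_nonneg_left _ (Real.exp_pos _).le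
  apply expA_le h _ hc
  apply div_nonneg ht
  have : (2 : ℝ) ≤ n := by exact_mod_cast h
  apply mul_nonneg <;> linarith

end Pool.Agent.RandTransp
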